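import Mathlib
import Pool.Agent.Y826.ZG.Final
import Pool.Agent.Y826.ZC.Exact

/-!
# Every admissible set of 45 shifts contains an exact pattern of primes

Every set of at least 45 integers which misses a residue class modulo every prime has a subset `B` with at least
two elements such that, for every `R`, the primes within distance `R` of `n` are exactly the numbers `n + b`,
`b ∈ B`, `|b| ≤ R`, for at least `x ^ (1 - ε)` integers `n ≤ x` in any prescribed residue class, for arbitrarily
large `x`. This rests on `DHL[45,2]` for linear forms (`Pool.Agent.Y826.ZG.dhl45L`).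
-/

set_option autoImplicit false

open Filter

namespace Pool.Agent.Results.MP_3ec731_nt.ExactPatternsOf45

/-- Let `S` be a set of at least 45 integers which misses a residue class modulo every prime, and `r` a residue
modulo `q` such that all `r + s`, `s ∈ S`, are prime to `q`. There is `B ⊆ S` with at least two elements such
that for all `R`, `ε > 0` and arbitrarily large `x` at least `x ^ (1 - ε)` integers `0 ≤ n ≤ x`, `n ≡ r (mod q)`,
have the property: for `|y| ≤ R` the number `n + y` is prime if and only if `y ∈ B`. -/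
theorem result (S : Finset ℤ) (hS : 45 ≤ S.card)
    (hadm : ∀ p : ℕ, p.Prime → ∃ r : ℤ, ∀ s ∈ S, ¬ (p : ℤ) ∣ r + s) (q : ℕ) (r : ℤ) (hq : 0 < q)
    (hr : ∀ s ∈ S, IsCoprime (r + s) (q : ℤ)) :
    ∃ B : Finset ℤ, B ⊆ S ∧ 2 ≤ B.card ∧ ∀ (R : ℕ) (ε : ℝ), 0 < ε → ∃ᶠ x : ℝ in atTop,
      x ^ (1 - ε) ≤ (Set.ncard {n : ℕ | (n : ℝ) ≤ x ∧ (n : ℤ) ≡ r [ZMOD q] ∧
        ∀ y : ℤ, |y| ≤ R → ((∃ p : ℕ, p.Prime ∧ (p : ℤ) = n + y) ↔ y ∈ B)} : ℝ) :=
  Pool.Agent.Y826.ZC.exact45_of Pool.Agent.Y826.ZG.dhl45L S hS hadm q r hq hr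

end Pool.Agent.Results.MP_3ec731_nt.ExactPatternsOf45
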