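import Mathlib
import Pool.Agent.Y887.DE.PtB

/-!
# Every finite pattern, with an exactly prescribed value of a multiplicative function at every member

For every `k` there is `r_k` such that for all `r ≥ r_k` EVERY set of `k` integers is, infinitely often, the
pattern of `k` consecutive elements of the set of the integers with exactly `r` distinct prime factors; the same
holds for the integers with exactly `d` divisors, for every multiple `d` of some `d_k`. These are the cases
`F = ω`, `F = τ` of a theorem on multiplicative functions whose values at the prime powers `p ^ e` depend only on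
`e`, for which the parity obstruction of the sieve is absent: some relation `∏ f (u_i) = ∏ f (v_j)` has
`∑ u_i = ∑ v_j + 1`. The values at the members of the pattern can be prescribed independently of each other.

The proof combines the lines and points in a cube `(Fin b) ^ (k + 1)` and the random exponents of the starting
library (`H410R2`, `H446R2`, `H495R2`) with exponents of private primes realising the relation, uniform bounds
for all exponents of the construction, and a sieve which counts the arguments.
-/

set_option autoImplicit false

namespace Pool.Agent.Results.MP_3ec731_nt.ExactValuesOnPatterns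

open Filter

/-- The value at `n` of the multiplicative function whose value at every prime power `p ^ e`, `e ≥ 1`, is
`f e`, with values in a commutative group. -/
def F {Γ : Type} [CommGroup Γ] (f : ℕ → Γ) (n : ℕ) : Γ :=
  ∏ p ∈ n.primeFactors, f (n.factorization p)

/-- **Exact patterns of almost primes with prescribed values of a multiplicative function.**  Let `k ≥ 2` and
let `F` be the multiplicative function with the values `f e` at all prime powers `p ^ e`, with values in a
commutative group, such that for some finite multisets `u`, `v` of positive integers, with `∑ u = ∑ v + 1`, the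
products of the `f j`, `j ∈ u`, and of the `f j`, `j ∈ v`, are equal.  There are an element `Φ` of the group and
a number `K` such that the following holds for every set `H` of `k` natural numbers, for all elements `γ h`,
`h ∈ H`, of the monoid generated by the `f j`, `j ≥ 1`, for every `N` and every upper bound `D` of `H`.  There
are `Q ≥ N` and `C` such that for all large `X` at least `X / (log X) ^ K` integers `n ≤ X` have these
properties: every integer of `[n - D, n + D]` which is not one of the `n + h`, `h ∈ H`, has at least `N`
different prime factors `≤ Q`; and for all `h ∈ H`: `F (n + h) = Φ * γ h`, all prime factors of `n + h` are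
`> Q`, except for those `p ≤ k` for which `H` meets all residue classes modulo `p`, and `n + h = c * s` with
`c ≤ C` and `s` squarefree with all prime factors larger than `X ^ (1 / K)`. -/
theorem result (k : ℕ) (hk : 2 ≤ k) {Γ : Type} [CommGroup Γ] (f : ℕ → Γ) (u v : Multiset ℕ)
    (hu : ∀ j ∈ u, 1 ≤ j) (hv : ∀ j ∈ v, 1 ≤ j) (hsum : u.sum = v.sum + 1)
    (huv : (u.map f).prod = (v.map f).prod) :
    ∃ (Φ : Γ) (K : ℕ), ∀ H : Finset ℕ, H.card = k →
      ∀ γ : ℕ → Γ, (∀ h ∈ H, γ h ∈ Submonoid.closure (f '' {j | 1 ≤ j})) →
      ∀ N D : ℕ, (∀ h ∈ H, h ≤ D) → ∃ Q C : ℕ, N ≤ Q ∧ ∀ᶠ X : ℕ in atTop,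
        (X : ℝ) / Real.log X ^ K ≤ ({n : ℕ | n ≤ X ∧
          (∀ m : ℕ, n ≤ m + D → m ≤ n + D → (∀ h ∈ H, m ≠ n + h) →
            N ≤ (m.primeFactors.filter (fun p => p ≤ Q)).card) ∧
          ∀ h ∈ H, F f (n + h) = Φ * γ h ∧
            (∀ p : ℕ, p.Prime → p ∣ n + h → Q < p ∨ p ≤ k ∧ ∀ r < p, ∃ h' ∈ H, h' % p = r) ∧
            ∃ c s : ℕ, n + h = c * s ∧ c ≤ C ∧ Squarefree s ∧
              ∀ p : ℕ, p.Prime → p ∣ s → X < p ^ K}.ncard : ℝ) :=
  Pool.Agent.Y887.DE.pattern3 k hk f u v hu hv hsum huv

end Pool.Agent.Results.MP_3ec731_nt.ExactValuesOnPatterns
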