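import Pool.Agent.Y175.JP.Proc

set_option autoImplicit false

/-!
# Patterns of consecutive almost primes are independent Poisson processes

Definitions used, for the function `v = value` (`v m = m`):
`Good v 1 r X m` (`Pool.Agent.Y175.PW`): `m` has at most `r` prime factors (with multiplicity), all
larger than `X ^ (1 / r)`; we say that `m` is good. From `Pool.Agent.Y175.JP`:
`Admissible v H`: for every prime `p` there is `m` such that `p` divides none of the `m + h`, `h ∈ H`;
`Occurs v 1 r X H D m`: the good integers in `[m, m + D]` are exactly the `m + h`, `h ∈ H` (for `D` the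
largest element of `H`: the `m + h` are consecutive good integers);
`Occ v 1 r X H D a b`: the number of the `m` in `(a, b]` with this property;
`VH v H r X`: the product over the primes `p ≤ X ^ (1 / r)` of `1 - ω / p`, where `ω` is the number of
the residue classes occupied by `-H` modulo `p`. Finally `poisson x j = exp (-x) x ^ j / j!`.
-/

namespace Pool.Agent.Results.MP_3ec731_nt.JointPoissonLaw

open Finset Filter
open Pool.Agent.Y175.PW Pool.Agent.Y175.JP

/-- The integers themselves. -/
def value (m : ℕ) : ℤ := m

open Classical in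
/-- **The occurrences of different admissible patterns as consecutive almost primes are asymptotically
independent Poisson processes**, in all intervals of length `X ^ θ`, seen from a typical integer and seen
from a typical occurrence. The numbers of the occurrences of the patterns `H i` in the windows
`(n + a i, n + a i + T i]` (disjoint for equal patterns, of bounded mean) have, for `n ∈ (X, X + Y]`, the
joint distribution of independent Poisson variables up to `ε`, for every finite set `B` of vectors; and
the same holds for the `n ∈ (X, X + Y]` at which a given one of the patterns (of the smallest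
cardinality) occurs, the number of which is asymptotically `Y` times its sieve density. -/
theorem result {ι : Type} [Fintype ι] (H : ι → Finset ℕ) (D : ι → ℕ)
    (h0 : ∀ i, 0 ∈ H i) (hD : ∀ i, ∀ h ∈ H i, h ≤ D i) (hadm : ∀ i, Admissible value (H i))
    (θ : ℝ) (hθ : 0 < θ) (x₀ ε : ℝ) (hε : 0 < ε) :
    ∃ r₀ : ℕ, ∀ r : ℕ, r₀ ≤ r → ∀ᶠ X : ℕ in atTop, ∀ Y : ℕ, (X : ℝ) ^ θ ≤ Y → Y ≤ X →
      ∀ a T : ι → ℕ,
      (∀ i j, i ≠ j → H i = H j → (a i + T i ≤ a j ∨ a j + T j ≤ a i)) →
      (∀ i, ((a i : ℝ) + T i) * VH value (H i) r X ≤ x₀) →
      ∀ B : Finset (ι → ℕ),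
        |(((Finset.Ioc X (X + Y)).filter (fun n =>
            (fun i => Occ value 1 r X (H i) (D i) (n + a i) (n + a i + T i)) ∈ B)).card : ℝ) -
          Y * ∑ j ∈ B, ∏ i, poisson (T i * VH value (H i) r X) (j i)| ≤ ε * Y ∧
        ∀ i₀ : ι, (∀ i, (H i₀).card ≤ (H i).card) →
        |(((Finset.Ioc X (X + Y)).filter (fun n => Occurs value 1 r X (H i₀) (D i₀) n ∧
            (fun i => Occ value 1 r X (H i) (D i) (n + a i) (n + a i + T i)) ∈ B)).card : ℝ) -
          Y * VH value (H i₀) r X * ∑ j ∈ B, ∏ i, poisson (T i * VH value (H i) r X) (j i)| ≤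
          ε * (Y * VH value (H i₀) r X) :=
  process_law (P := (Polynomial.X : Polynomial ℤ))
    { irr := Polynomial.irreducible_X
      deg := Polynomial.natDegree_X
      pos := one_pos
      lead := by rw [Polynomial.leadingCoeff_X]; exact one_pos
      val := fun m => by rw [Polynomial.eval_X]; rfl
      adm := fun p hp => ⟨1, fun h => by
        have h1 : (p : ℤ) ∣ ((1 : ℕ) : ℤ) := h
        exact hp.one_lt.ne' (Nat.dvd_one.1 (Int.natCast_dvd_natCast.1 h1))⟩ }
    H D h0 hD hadm θ hθ x₀ ε hε

end Pool.Agent.Results.MP_3ec731_nt.JointPoissonLaw
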