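import Pool.Agent.Y520.NP.Fin
import Pool.Agent.Y520.NP.Ram
import Pool.Agent.Y574.NP.Inf
import Pool.Agent.Y960.NP.Nar
import Pool.Agent.Y108.NP.Fam
import Pool.Agent.Y291.NP.BLK
import Pool.Agent.Y677.RSZ.Top

/-!
# Exact patterns of primes along narrow progressions of every length

Let `F` be an infinite set of integers and `χ` a finite colouring of the natural numbers.  There is an
infinite set `G ⊆ F` such that EVERY subset `I` of `G` (finite or infinite), every distance `R` and every
length `k` have the following property.  There is a `C` such that arbitrarily far out there are `n` and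
`1 ≤ d ≤ (log n) ^ C` such that for each of the `k` numbers `m = n + j d`, `j < k`, the primes within
distance `R` of `m` are exactly the numbers `m + y`, `y ∈ I`, `|y| ≤ R`; moreover the colour of the prime
`n + j d + y` does not depend on `j`.

In particular every infinite set of integers contains an infinite set `G` such that every finite
nonempty subset of `G` is the pattern of a block of consecutive primes, and for every `k` there are
infinitely many `k`-term arithmetic progressions of such blocks, with a difference bounded by a power of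
the logarithm, in which corresponding primes have the same colour.
-/

namespace Pool.Agent.Results.MP_3ec731_nt.NarrowProgressions

theorem result (r : ℕ) (χ : ℕ → Fin (r + 1)) (F : Set ℤ) (hF : F.Infinite) :
    ∃ G ⊆ F, G.Infinite ∧ ∀ I ⊆ G, ∀ R k : ℕ, ∃ C : ℕ, ∀ n₀ : ℕ, ∃ n d : ℕ, n₀ ≤ n ∧ 1 ≤ d ∧
      (d : ℝ) ≤ Real.log n ^ C ∧ ∀ j < k, ∀ y : ℤ, |y| ≤ R →
        ((Nat.Prime ((n : ℤ) + j * d + y).toNat ↔ y ∈ I) ∧
          (y ∈ I → χ ((n : ℤ) + j * d + y).toNat = χ ((n : ℤ) + y).toNat)) :=
  Pool.Agent.Y520.NP.her
    (Pool.Agent.Y574.NP.inf (Pool.Agent.Y520.NP.bm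
      (Pool.Agent.Y291.NP.blk Pool.Agent.Y108.NP.famb)
      (Pool.Agent.Y960.NP.nar Pool.Agent.Y677.RSZ.eng_all)))
    Pool.Agent.Y520.NP.ram r χ F hF

end Pool.Agent.Results.MP_3ec731_nt.NarrowProgressions
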